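import Pool.Agent.Helper85.KB.B1

set_option autoImplicit false

/-!
# The best index of a vertex and its transport to 0 (total partitions)
-/

open Finset

namespace LK

open KF KB

/-- Six automorphisms of the design, the `i`-th one maps `i` to 0. -/
def autI : List (Fin 6 → Fin 6) :=
  [![0, 1, 2, 3, 4, 5], ![1, 0, 2, 3, 5, 4], ![1, 2, 0, 5, 3, 4], ![1, 2, 5, 0, 4, 3],
    ![1, 5, 2, 4, 0, 3], ![1, 5, 4, 2, 3, 0]]

theorem autI_tab : ∀ i : Fin 6, ((autI.getD i id) i = 0 ∧
    (∀ a b, (autI.getD i id) a = (autI.getD i id) b → a = b)) ∧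
    ∀ a b c, D6 ((autI.getD i id) a) ((autI.getD i id) b) ((autI.getD i id) c) = D6 a b c := by
  decide +kernel

/-- For every index an automorphism of the design which maps it to 0. -/
theorem to0 (i : Fin 6) : ∃ s : Fin 6 → Fin 6, Function.Injective s ∧
    (∀ a b c, D6 (s a) (s b) (s c) = D6 a b c) ∧ (∀ b c, D6 0 (s b) (s c) = D6 i b c) ∧
    (∀ a, s a = 0 ↔ a = i) ∧ ∀ j, ∃ a, s a = j := by
  obtain ⟨⟨h1, h2⟩, h3⟩ := autI_tab i
  have hi : Function.Injective (autI.getD i id) := fun a b h => h2 a b h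
  refine ⟨autI.getD i id, hi, h3, fun b c => ?_, fun a => ⟨fun h => ?_, fun h => ?_⟩,
    Finite.surjective_of_injective hi⟩
  · conv_lhs => rw [← h1]
    exact h3 i b c
  · rw [← h1] at h
    exact h2 _ _ h
  · rw [h, h1]

section
variable {V : Type} [Fintype V]

/-- The part of the link of `v` in the pentagon of `j`. -/
noncomputable def Ph (E : V → V → V → Bool) (w : V → ℝ) (κ : V → Fin 6) (v : V) (j : Fin 6) : ℝ :=
  ∑ y, ∑ z, w y * w z * (b2r (D6 j (κ y) (κ z)) * b2r (E v y z))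

/-- The missing pairs of the pentagon of `j`. -/
noncomputable def Ms (E : V → V → V → Bool) (w : V → ℝ) (κ : V → Fin 6) (v : V) (j : Fin 6) : ℝ :=
  ∑ y, ∑ z, w y * w z * (b2r (D6 j (κ y) (κ z)) * (1 - b2r (E v y z)))

/-- A best index. -/
theorem best (E : V → V → V → Bool) (w : V → ℝ) (κ : V → Fin 6) (v : V) :
    ∃ i, ∀ j, Ph E w κ v j ≤ Ph E w κ v i := Finite.exists_max (Ph E w κ v)

variable {E : V → V → V → Bool} {w : V → ℝ} {κ : V → Fin 6} {v : V} {s : Fin 6 → Fin 6}

theorem Ph_aut (hs : ∀ a b c, D6 (s a) (s b) (s c) = D6 a b c) (j : Fin 6) :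
    Ph E w (fun u => s (κ u)) v (s j) = Ph E w κ v j := by
  unfold Ph
  exact sum_congr rfl fun y _ => sum_congr rfl fun z _ => by rw [hs]

theorem Ms_aut (hs : ∀ a b c, D6 (s a) (s b) (s c) = D6 a b c) (j : Fin 6) :
    Ms E w (fun u => s (κ u)) v (s j) = Ms E w κ v j := by
  unfold Ms
  exact sum_congr rfl fun y _ => sum_congr rfl fun z _ => by rw [hs]

theorem xs_aut (hi : Function.Injective s) (j : Fin 6) :
    xs w (fun u => s (κ u)) (s j) = xs w κ j := by
  unfold xs ic
  refine sum_congr rfl fun u _ => ?_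
  congr 2
  exact decide_eq_decide.2 ⟨fun h => hi h, fun h => congrArg s h⟩

theorem sum_aut (hi : Function.Injective s) (f : Fin 6 → ℝ) : ∑ j, f (s j) = ∑ j, f j :=
  Fintype.sum_bijective s (Finite.injective_iff_bijective.1 hi) _ _ fun _ => rfl

theorem sz_aut (hi : Function.Injective s) :
    ∑ j, (xs w (fun u => s (κ u)) j - 1 / 6) ^ 2 = ∑ j, (xs w κ j - 1 / 6) ^ 2 := by
  rw [← sum_aut hi]
  exact sum_congr rfl fun j _ => by rw [xs_aut hi]

theorem PP_aut (hi : Function.Injective s) (hs : ∀ a b c, D6 (s a) (s b) (s c) = D6 a b c)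
    (i : Fin 6) : PP w (fun u => s (κ u)) (s i) = PP w κ i := by
  unfold PP
  rw [← sum_aut hi]
  refine sum_congr rfl fun j _ => ?_
  rw [← sum_aut hi]
  exact sum_congr rfl fun k _ => by rw [xs_aut hi, xs_aut hi, hs]

theorem mm_aut (hs : ∀ a b c, D6 (s a) (s b) (s c) = D6 a b c) (a : V) :
    mm E w (fun u => s (κ u)) a = mm E w κ a := by
  unfold mm
  exact sum_congr rfl fun y _ => sum_congr rfl fun z _ => by rw [hs]

theorem mu_aut (hs : ∀ a b c, D6 (s a) (s b) (s c) = D6 a b c) :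
    mu E w (fun u => s (κ u)) = mu E w κ := by
  unfold mu
  exact sum_congr rfl fun a _ => by rw [mm_aut hs]

/-- Missing triples with a given class `j`. -/
noncomputable def muj (E : V → V → V → Bool) (w : V → ℝ) (κ : V → Fin 6) (j : Fin 6) : ℝ :=
  ∑ a, w a * (b2r (decide (κ a = j)) * mm E w κ a)

theorem muj_aut (hi : Function.Injective s) (hs : ∀ a b c, D6 (s a) (s b) (s c) = D6 a b c)
    (j : Fin 6) : muj E w (fun u => s (κ u)) (s j) = muj E w κ j := by
  unfold muj
  refine sum_congr rfl fun a _ => ?_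
  rw [mm_aut hs]
  congr 3
  exact decide_eq_decide.2 ⟨fun h => hi h, fun h => congrArg s h⟩

/-- Density of the link of `v` inside the class `j`. -/
noncomputable def Qi (E : V → V → V → Bool) (w : V → ℝ) (κ : V → Fin 6) (v : V) (j : Fin 6) : ℝ :=
  ∑ y, ∑ z, w y * w z * (ic κ j y * ic κ j z * b2r (E v y z))

theorem Qi_aut (hi : Function.Injective s) (j : Fin 6) :
    Qi E w (fun u => s (κ u)) v (s j) = Qi E w κ v j := by
  have h : ∀ u, ic (fun u => s (κ u)) (s j) u = ic κ j u := by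
    intro u
    unfold ic
    congr 1
    exact decide_eq_decide.2 ⟨fun h => hi h, fun h => congrArg s h⟩
  unfold Qi
  exact sum_congr rfl fun y _ => sum_congr rfl fun z _ => by rw [h, h]

/-- **Transport to the index 0**: if the link inequality is known for every partition for which 0
is a best index of `v`, it holds for every partition at a best index. -/
theorem link_part {P : (V → Fin 6) → Prop} {X : (V → Fin 6) → Fin 6 → ℝ}
    (hP : ∀ (s : Fin 6 → Fin 6), Function.Injective s →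
      (∀ a b c, D6 (s a) (s b) (s c) = D6 a b c) → P κ → P fun u => s (κ u))
    (hX : ∀ (s : Fin 6 → Fin 6), Function.Injective s →
      (∀ a b c, D6 (s a) (s b) (s c) = D6 a b c) → ∀ j, X (fun u => s (κ u)) (s j) = X κ j)
    (link0 : ∀ κ' : V → Fin 6, P κ' → (∀ j, Ph E w κ' v j ≤ Ph E w κ' v 0) → 0 ≤ X κ' 0)
    (h : P κ) : ∃ i, (∀ j, Ph E w κ v j ≤ Ph E w κ v i) ∧ 0 ≤ X κ i := by
  obtain ⟨i, hi⟩ := best E w κ v
  obtain ⟨s, h1, h2, h3, h4, h5⟩ := to0 i
  refine ⟨i, hi, ?_⟩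
  have h0 : s i = 0 := (h4 i).2 rfl
  rw [← hX s h1 h2 i, h0]
  refine link0 _ (hP s h1 h2 h) fun j => ?_
  obtain ⟨a, rfl⟩ := h5 j
  rw [Ph_aut h2]
  have : Ph E w (fun u => s (κ u)) v 0 = Ph E w κ v i := by
    rw [← h0, Ph_aut h2]
  rw [this]
  exact hi a

end

end LK
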